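import Pool.Agent.W213.Ly.GenStm

/-!
The subalgebra `TW i j` of the Lyndon algebra `L(m,0)` is representable: colour the slopes of the
rational affine plane.
-/

set_option autoImplicit false

namespace Pool.Agent.W351.Ly

open Pool.Agent.W213.Ly.Gen

/-- the slope of a vector -/
def sv (z : ℚ × ℚ) : Option ℚ := if z.1 = 0 then none else some (z.2 / z.1)

/-- a vector with a given slope -/
def dv : Option ℚ → ℚ × ℚ
  | none => (0, 1)
  | some a => (1, a)

lemma sv_iff {z : ℚ × ℚ} (hz : z ≠ 0) (s : Option ℚ) :
    sv z = s ↔ z.1 * (dv s).2 - z.2 * (dv s).1 = 0 := by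
  obtain ⟨x, y⟩ := z
  cases s with
  | none =>
    simp only [sv, dv]
    by_cases hx : x = 0
    · simp [hx]
    · simp [hx]
  | some a =>
    simp only [sv, dv]
    by_cases hx : x = 0
    · have hy : y ≠ 0 := by
        intro hy
        exact hz (by rw [hx, hy]; rfl)
      simp [hx, hy]
    · rw [if_neg hx, Option.some_inj, div_eq_iff hx]
      constructor
      · intro h
        rw [h]; ring
      · intro h
        linarith

lemma dv_ne (s : Option ℚ) : dv s ≠ 0 := by
  cases s with
  | none => intro h; simpa [dv] using congrArg Prod.snd h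
  | some a => intro h; simpa [dv] using congrArg Prod.fst h

lemma sv_dv (s : Option ℚ) : sv (dv s) = s := by
  rw [sv_iff (dv_ne s)]
  ring

lemma sv_smul (c : ℚ) (hc : c ≠ 0) (z : ℚ × ℚ) : sv (c • z) = sv z := by
  obtain ⟨x, y⟩ := z
  simp only [sv, Prod.smul_mk, smul_eq_mul]
  by_cases hx : x = 0
  · simp [hx]
  · rw [if_neg (mul_ne_zero hc hx), if_neg hx, mul_div_mul_left _ _ hc]

lemma sv_neg (z : ℚ × ℚ) : sv (-z) = sv z := by
  have := sv_smul (-1) (by norm_num) z
  rwa [neg_one_smul] at this

/-- decomposition along two slopes -/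
lemma split {z : ℚ × ℚ} (hz : z ≠ 0) {s t : Option ℚ} (hst : s ≠ t) (hs : sv z ≠ s)
    (ht : sv z ≠ t) : ∃ a b : ℚ × ℚ, a ≠ 0 ∧ b ≠ 0 ∧ a + b = z ∧ sv a = s ∧ sv b = t := by
  have hD : (dv s).1 * (dv t).2 - (dv s).2 * (dv t).1 ≠ 0 := by
    intro h
    apply hst
    rw [← (sv_iff (dv_ne s) t).2 h, sv_dv]
  have h1 : z.1 * (dv t).2 - z.2 * (dv t).1 ≠ 0 := fun h => ht ((sv_iff hz t).2 h)
  have h2 : z.1 * (dv s).2 - z.2 * (dv s).1 ≠ 0 := fun h => hs ((sv_iff hz s).2 h)
  set D := (dv s).1 * (dv t).2 - (dv s).2 * (dv t).1 with hDdef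
  set α := (z.1 * (dv t).2 - z.2 * (dv t).1) / D with hα
  set β := -(z.1 * (dv s).2 - z.2 * (dv s).1) / D with hβ
  have hα0 : α ≠ 0 := div_ne_zero h1 hD
  have hβ0 : β ≠ 0 := div_ne_zero (neg_ne_zero.2 h2) hD
  refine ⟨α • dv s, β • dv t, smul_ne_zero hα0 (dv_ne s), smul_ne_zero hβ0 (dv_ne t), ?_,
    by rw [sv_smul _ hα0, sv_dv], by rw [sv_smul _ hβ0, sv_dv]⟩
  ext
  · simp only [Prod.fst_add, Prod.smul_fst, smul_eq_mul]
    rw [hα, hβ]
    field_simp
    rw [hDdef]
    ring
  · simp only [Prod.snd_add, Prod.smul_snd, smul_eq_mul]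
    rw [hα, hβ]
    field_simp
    rw [hDdef]
    ring

/-- relations between the slopes of a triangle -/
lemma tri {a b : ℚ × ℚ} (ha : a ≠ 0) (hb : b ≠ 0) (hab : a + b ≠ 0) :
    (sv a = sv b → sv (a + b) = sv a) ∧ (sv (a + b) = sv a → sv b = sv a) ∧
      (sv (a + b) = sv b → sv a = sv b) := by
  refine ⟨fun h => ?_, fun h => ?_, fun h => ?_⟩
  · have h1 := (sv_iff ha (sv a)).1 rfl
    have h2 := (sv_iff hb (sv a)).1 h.symm
    rw [sv_iff hab]
    simp only [Prod.fst_add, Prod.snd_add]
    linarith
  · have h1 := (sv_iff ha (sv a)).1 rfl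
    have h2 := (sv_iff hab (sv a)).1 h
    rw [sv_iff hb]
    simp only [Prod.fst_add, Prod.snd_add] at h2
    linarith
  · have h1 := (sv_iff hb (sv b)).1 rfl
    have h2 := (sv_iff hab (sv b)).1 h
    rw [sv_iff ha]
    simp only [Prod.fst_add, Prod.snd_add] at h2
    linarith

section col
variable {m : ℕ} (i j : Fin (m + 1))

/-- an injection of the classes in the slopes -/
def em (k : Fin (m + 1)) : Option ℚ := some ((k : ℕ) : ℚ)

lemma em_inj {k l : Fin (m + 1)} (h : em k = em l) : k = l := by
  simp only [em, Option.some_inj, Nat.cast_inj] at h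
  exact Fin.ext h

open Classical in
/-- the class of a slope -/
noncomputable def cls (s : Option ℚ) : Fin (m + 1) :=
  if h : ∃ k : Fin (m + 1), em k = s ∧ k ≠ j then h.choose else i

lemma cls_em {k : Fin (m + 1)} (hk : k ≠ j) : cls i j (em k) = k := by
  have h : ∃ k' : Fin (m + 1), em k' = em k ∧ k' ≠ j := ⟨k, rfl, hk⟩
  rw [cls, dif_pos h]
  exact em_inj h.choose_spec.1

lemma cls_em_j : cls i j (em j) = i := by
  rw [cls, dif_neg]
  rintro ⟨k, hk1, hk2⟩
  exact hk2 (em_inj hk1)

variable {i j}

lemma cls_ne (hij : i ≠ j) (s : Option ℚ) : cls i j s ≠ j := by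
  rw [cls]
  split_ifs with h
  · exact h.choose_spec.2
  · exact hij

lemma eq_em {s : Option ℚ} (h : cls i j s ≠ i) : s = em (cls i j s) := by
  rw [cls] at h ⊢
  split_ifs at h ⊢ with h'
  · exact h'.choose_spec.1.symm
  · exact absurd rfl h

variable (i j)

open Classical in
/-- the colour of a vector -/
noncomputable def col (z : ℚ × ℚ) : At m := if z = 0 then none else some (cls i j (sv z))

variable {i j}

lemma col_zero : col i j 0 = none := by simp [col]

lemma col_ne {z : ℚ × ℚ} (hz : z ≠ 0) : col i j z = some (cls i j (sv z)) := by simp [col, hz]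

lemma col_neg (z : ℚ × ℚ) : col i j (-z) = col i j z := by
  by_cases hz : z = 0
  · simp [hz]
  · rw [col_ne hz, col_ne (neg_ne_zero.2 hz), sv_neg]

lemma comp_mp (hij : i ≠ j) {x y : Set (At m)} (hx : x ∈ TW i j) (hy : y ∈ TW i j) {z : ℚ × ℚ}
    (h : col i j z ∈ cmpS x y) : ∃ a b : ℚ × ℚ, a + b = z ∧ col i j a ∈ x ∧ col i j b ∈ y := by
  obtain ⟨a, ha, b, hb, hab⟩ := h
  -- a slope for every class
  have hsl : ∀ S ∈ (TW i j : Set (Set (At m))), ∀ k : Fin (m + 1), some k ∈ S →
      ∃ s, some (cls i j s) ∈ S := by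
    intro S hS k hk
    by_cases hkj : k = j
    · rw [hkj] at hk
      exact ⟨em i, by rw [cls_em i j hij]; exact (show some i ∈ S ↔ some j ∈ S from hS).2 hk⟩
    · exact ⟨em k, by rw [cls_em i j hkj]; exact hk⟩
  cases a with
  | none =>
    refine ⟨0, z, zero_add z, by rw [col_zero]; exact ha, ?_⟩
    have : col i j z = b := hab
    rw [this]; exact hb
  | some k =>
    cases b with
    | none =>
      refine ⟨z, 0, add_zero z, ?_, by rw [col_zero]; exact hb⟩
      have : col i j z = some k := hab
      rw [this]; exact ha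
    | some l =>
      by_cases hkl : k = l
      · subst hkl
        have hab' : col i j z = none ∨ col i j z = some k := by
          simpa [AC] using hab
        by_cases hz : z = 0
        · -- a pair of opposite vectors
          have hxy : ∃ s, some (cls i j s) ∈ x ∩ y := by
            refine hsl (x ∩ y) ?_ k ⟨ha, hb⟩
            show some i ∈ x ∩ y ↔ some j ∈ x ∩ y
            exact and_congr hx hy
          obtain ⟨s, hs1, hs2⟩ := hxy
          refine ⟨dv s, -dv s, by rw [hz, add_neg_cancel], ?_, ?_⟩
          · rw [col_ne (dv_ne s), sv_dv]; exact hs1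
          · rw [col_neg, col_ne (dv_ne s), sv_dv]; exact hs2
        · have h1 : col i j z = some k := by
            rcases hab' with h | h
            · rw [col_ne hz] at h; cases h
            · exact h
          have h2 : col i j ((1 / 2 : ℚ) • z) = some k := by
            rw [col_ne (smul_ne_zero (by norm_num) hz), sv_smul _ (by norm_num), ← h1, col_ne hz]
          refine ⟨(1 / 2 : ℚ) • z, (1 / 2 : ℚ) • z, ?_, by rw [h2]; exact ha,
            by rw [h2]; exact hb⟩
          rw [← add_smul]
          norm_num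
      · have hab' : col i j z ≠ none ∧ col i j z ≠ some k ∧ col i j z ≠ some l := by
          simpa [AC, hkl] using hab
        obtain ⟨hc1, hc2, hc3⟩ := hab'
        have hz : z ≠ 0 := by
          intro hz
          exact hc1 (by rw [hz, col_zero])
        rw [col_ne hz] at hc2 hc3
        have hc2' : cls i j (sv z) ≠ k := fun h => hc2 (by rw [h])
        have hc3' : cls i j (sv z) ≠ l := fun h => hc3 (by rw [h])
        -- the slopes
        have hst : ∃ s t : Option ℚ, s ≠ t ∧ sv z ≠ s ∧ sv z ≠ t ∧ some (cls i j s) ∈ x ∧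
            some (cls i j t) ∈ y := by
          by_cases hkj : k = j
          · have hix : some i ∈ x := (show some i ∈ x ↔ some j ∈ x from hx).2 (hkj ▸ ha)
            have hlj : l ≠ j := fun h => hkl (hkj.trans h.symm)
            by_cases hli : l = i
            · -- both in class i
              refine ⟨em j, em i, fun h => hij (em_inj h).symm, fun h => ?_, fun h => ?_, ?_, ?_⟩
              · exact hc3' (by rw [h, cls_em_j, hli])
              · exact hc3' (by rw [h, cls_em i j hij, hli])
              · rw [cls_em_j]; exact hix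
              · rw [cls_em i j hij, ← hli]; exact hb
            · by_cases hr : sv z = em i
              · refine ⟨em j, em l, fun h => hlj (em_inj h).symm, fun h => ?_, fun h => ?_, ?_, ?_⟩
                · exact hij (em_inj (hr.symm.trans h))
                · exact hc3' (by rw [h, cls_em i j hlj])
                · rw [cls_em_j]; exact hix
                · rw [cls_em i j hlj]; exact hb
              · refine ⟨em i, em l, fun h => hli (em_inj h).symm, hr, fun h => ?_, ?_, ?_⟩
                · exact hc3' (by rw [h, cls_em i j hlj])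
                · rw [cls_em i j hij]; exact hix
                · rw [cls_em i j hlj]; exact hb
          · by_cases hlj : l = j
            · have hiy : some i ∈ y := (show some i ∈ y ↔ some j ∈ y from hy).2 (hlj ▸ hb)
              by_cases hki : k = i
              · refine ⟨em i, em j, fun h => hij (em_inj h), fun h => ?_, fun h => ?_, ?_, ?_⟩
                · exact hc2' (by rw [h, cls_em i j hij, hki])
                · exact hc2' (by rw [h, cls_em_j, hki])
                · rw [cls_em i j hij, ← hki]; exact ha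
                · rw [cls_em_j]; exact hiy
              · by_cases hr : sv z = em i
                · refine ⟨em k, em j, fun h => hkj (em_inj h), fun h => ?_, fun h => ?_, ?_, ?_⟩
                  · exact hc2' (by rw [h, cls_em i j hkj])
                  · exact hij (em_inj (hr.symm.trans h))
                  · rw [cls_em i j hkj]; exact ha
                  · rw [cls_em_j]; exact hiy
                · refine ⟨em k, em i, fun h => hki (em_inj h), fun h => ?_, hr, ?_, ?_⟩
                  · exact hc2' (by rw [h, cls_em i j hkj])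
                  · rw [cls_em i j hkj]; exact ha
                  · rw [cls_em i j hij]; exact hiy
            · refine ⟨em k, em l, fun h => hkl (em_inj h), fun h => ?_, fun h => ?_, ?_, ?_⟩
              · exact hc2' (by rw [h, cls_em i j hkj])
              · exact hc3' (by rw [h, cls_em i j hlj])
              · rw [cls_em i j hkj]; exact ha
              · rw [cls_em i j hlj]; exact hb
        obtain ⟨s, t, hst, hs, ht, hsx, hty⟩ := hst
        obtain ⟨a, b, ha0, hb0, hab0, hsa, htb⟩ := split hz hst hs ht
        exact ⟨a, b, hab0, by rw [col_ne ha0, hsa]; exact hsx, by rw [col_ne hb0, htb]; exact hty⟩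

lemma comp_mpr (hij : i ≠ j) {x y : Set (At m)} (hx : x ∈ TW i j) (hy : y ∈ TW i j)
    {a b : ℚ × ℚ} (ha : col i j a ∈ x) (hb : col i j b ∈ y) : col i j (a + b) ∈ cmpS x y := by
  by_cases ha0 : a = 0
  · refine ⟨col i j a, ha, col i j b, hb, ?_⟩
    rw [ha0, zero_add, col_zero]
    exact rfl
  by_cases hb0 : b = 0
  · refine ⟨col i j a, ha, col i j b, hb, ?_⟩
    rw [hb0, add_zero, col_zero, col_ne ha0]
    exact rfl
  by_cases hab : a + b = 0
  · have h1 : b = -a := (neg_eq_of_add_eq_zero_right hab).symm
    have h2 : col i j b = col i j a := by rw [h1, col_neg]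
    refine ⟨col i j a, ha, col i j b, hb, ?_⟩
    rw [hab, col_zero, h2, col_ne ha0]
    simp [AC]
  obtain ⟨t1, t2, t3⟩ := tri ha0 hb0 hab
  have ha' := ha
  have hb' := hb
  rw [col_ne ha0] at ha'
  rw [col_ne hb0] at hb'
  rw [col_ne hab]
  by_cases hs : sv a = sv b
  · refine ⟨_, ha', _, hb', ?_⟩
    rw [t1 hs, hs]
    simp [AC]
  have hra : sv (a + b) ≠ sv a := fun h => hs (t2 h).symm
  have hrb : sv (a + b) ≠ sv b := fun h => hs (t3 h)
  set k := cls i j (sv a) with hk
  set l := cls i j (sv b) with hl
  set r := cls i j (sv (a + b)) with hr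
  have hkj : k ≠ j := cls_ne hij _
  have hlj : l ≠ j := cls_ne hij _
  have hrj : r ≠ j := cls_ne hij _
  -- two different slopes of the same class are in class i
  have two : ∀ s t : Option ℚ, s ≠ t → cls i j s = cls i j t → cls i j s = i := by
    intro s t hst h
    by_contra hne
    apply hst
    rw [eq_em hne, eq_em (h ▸ hne : cls i j t ≠ i), h]
  by_cases hkl : k = l
  · have hki : k = i := two _ _ hs hkl
    by_cases hri : r = i
    · refine ⟨_, ha', _, hb', ?_⟩
      rw [← hkl, hki, hri]
      simp [AC]
    · have hjy : some j ∈ y := (show some i ∈ y ↔ some j ∈ y from hy).1 (by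
        rw [← hki, hkl]; exact hb')
      refine ⟨_, ha', _, hjy, ?_⟩
      rw [hki]
      simp only [AC, if_neg hij]
      exact ⟨by simp, fun h => hri (Option.some_inj.1 h), fun h => hrj (Option.some_inj.1 h)⟩
  · by_cases hrk : r = k
    · have hri : r = i := two _ _ hra hrk
      have hki : k = i := hrk.symm.trans hri
      have hli : l ≠ i := fun h => hkl (hki.trans h.symm)
      have hjx : some j ∈ x := (show some i ∈ x ↔ some j ∈ x from hx).1 (by
        rw [← hki]; exact ha')
      refine ⟨_, hjx, _, hb', ?_⟩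
      rw [hri]
      simp only [AC, if_neg hlj.symm]
      exact ⟨by simp, fun h => hij (Option.some_inj.1 h),
        fun h => hli (Option.some_inj.1 h).symm⟩
    · by_cases hrl : r = l
      · have hri : r = i := two _ _ hrb hrl
        have hli : l = i := hrl.symm.trans hri
        have hki : k ≠ i := fun h => hkl (h.trans hli.symm)
        have hjy : some j ∈ y := (show some i ∈ y ↔ some j ∈ y from hy).1 (by
          rw [← hli]; exact hb')
        refine ⟨_, ha', _, hjy, ?_⟩
        rw [hri]
        simp only [AC, if_neg hkj]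
        exact ⟨by simp, fun h => hki (Option.some_inj.1 h).symm,
          fun h => hij (Option.some_inj.1 h)⟩
      · refine ⟨_, ha', _, hb', ?_⟩
        simp only [AC, if_neg hkl]
        exact ⟨by simp, fun h => hrk (Option.some_inj.1 h), fun h => hrl (Option.some_inj.1 h)⟩

end col

theorem repTwin (m : ℕ) (_hm : 3 ≤ m) : Pool.Agent.W213.Ly.Gen.RepTwin m := by
  intro i j hij
  refine ⟨ℚ × ℚ, fun S => {p | col i j (p.2 - p.1) ∈ S}, ?_, ?_, ?_, ?_⟩
  · intro S hS T hT h
    have hmem : ∀ z : ℚ × ℚ, col i j z ∈ S ↔ col i j z ∈ T := by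
      intro z
      have h1 : ((0, z) : (ℚ × ℚ) × (ℚ × ℚ)) ∈ {p : (ℚ × ℚ) × (ℚ × ℚ) | col i j (p.2 - p.1) ∈ S} ↔
          ((0, z) : (ℚ × ℚ) × (ℚ × ℚ)) ∈ {p : (ℚ × ℚ) × (ℚ × ℚ) | col i j (p.2 - p.1) ∈ T} := by
        have h' : {p : (ℚ × ℚ) × (ℚ × ℚ) | col i j (p.2 - p.1) ∈ S} =
          {p : (ℚ × ℚ) × (ℚ × ℚ) | col i j (p.2 - p.1) ∈ T} := h
        rw [h']
      simpa using h1
    have hk : ∀ k : Fin (m + 1), k ≠ j → (some k ∈ S ↔ some k ∈ T) := by
      intro k hk
      have := hmem (dv (em k))
      rwa [col_ne (dv_ne _), sv_dv, cls_em i j hk] at this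
    ext a
    cases a with
    | none =>
      have := hmem 0
      rwa [col_zero] at this
    | some k =>
      by_cases hkj : k = j
      · rw [hkj]
        exact (show some i ∈ S ↔ some j ∈ S from hS).symm.trans
          ((hk i hij).trans (show some i ∈ T ↔ some j ∈ T from hT))
      · exact hk k hkj
  · ext p
    simp
  · ext p
    simp only [Set.mem_setOf_eq, Set.mem_singleton_iff]
    constructor
    · intro h
      by_contra hne
      rw [col_ne (sub_ne_zero.2 (Ne.symm hne))] at h
      cases h
    · intro h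
      rw [h, sub_self, col_zero]
  · intro x hx y hy
    refine ⟨rfl, ?_, ?_⟩
    · ext p
      simp only [Set.mem_setOf_eq]
      constructor
      · intro h
        obtain ⟨a, b, hab, ha, hb⟩ := comp_mp hij hx hy h
        refine ⟨p.1 + a, by rw [add_sub_cancel_left]; exact ha, ?_⟩
        have : p.2 - (p.1 + a) = b := by
          rw [← sub_sub, ← hab, add_sub_cancel_left]
        rw [this]
        exact hb
      · rintro ⟨w, hw1, hw2⟩
        have := comp_mpr hij hx hy hw1 hw2
        have e : w - p.1 + (p.2 - w) = p.2 - p.1 := by abel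
        rwa [e] at this
    · ext p
      simp only [Set.mem_setOf_eq]
      rw [← neg_sub, col_neg]

end Pool.Agent.W351.Ly
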